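import Mathlib
import Pool.Agent.H84.Tern

namespace Pool.Agent.Results.MP_c8d2d2_an.Yes

open Pool.Agent.H84.Tern

theorem result (n : ℕ) (hn : 0 < n) (f : Matrix (Fin 3) (Fin 3) ℝ) (hf : f.PosSemidef)
    (h1 : f.mulVec (fun _ => 1) = 0) (ω : Fin 3 → ℝ) (hω : ∀ t, 0 < ω t) (hω1 : ∑ t, ω t = 1) :
    IsArr n cyc ∧ ∀ i, IsArr n i → U n f ω cyc ≤ U n f ω i :=
  ⟨cyc_arr n, fun _ h => main hn f hf h1 hω hω1 h⟩

end Pool.Agent.Results.MP_c8d2d2_an.Yes
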